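import Pool.Agent.helper85.AQ.SpecB

set_option autoImplicit false

namespace Pool.Agent.AQ

open Polynomial Pool.Agent.HC Pool.Agent.HC.SJ Pool.Agent.SJ Pool.Agent.GJ Pool.Agent.TK Pool.Agent.CM
open Pool.Agent.TQJ Pool.Agent.TQG
open Pool.Agent.FJ (VT Om chiO rf rs IsFrobO)
open Pool.Agent.TD (zK DvK bC mK IsPhiK Stab)
open scoped TensorProduct NumberField

noncomputable section

theorem BPA : BPA_stmt := by
  intro l _ D hD σ hσ
  refine ⟨hσ, fun i => ?_⟩
  rcases hD i with hD | ⟨hμ, F, hF⟩
  · refine ⟨1, ⟨fun j => ?_, fun j => rfl⟩⟩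
    obtain ⟨x, hx⟩ := hD j
    show σ (D.a i j) = D.a i j
    rw [hx]
    exact map_ratCast σ x
  · have hroot : ∀ j, ∃ j', σ (D.a i j) = D.a i j' := by
      intro j
      have h1 : (F.map (algebraMap ℚ Om)).eval (D.a i j) = 0 := by
        rw [hF, eval_prod]
        apply Finset.prod_eq_zero (Finset.mem_univ j)
        simp
      have h2 : (F.map (algebraMap ℚ Om)).eval (σ (D.a i j)) = 0 := by
        rw [eval_map] at h1 ⊢
        have h3 := congrArg σ h1
        rw [map_zero] at h3
        have h4 : σ (eval₂ (algebraMap ℚ Om) (D.a i j) F) =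
            eval₂ ((σ : Om →+* Om).comp (algebraMap ℚ Om)) (σ (D.a i j)) F := by
          exact hom_eval₂ F (algebraMap ℚ Om) (σ : Om →+* Om) (D.a i j)
        rw [h4] at h3
        have h5 : (σ : Om →+* Om).comp (algebraMap ℚ Om) = algebraMap ℚ Om := Subsingleton.elim _ _
        rwa [h5] at h3
      rw [hF, eval_prod, Finset.prod_eq_zero_iff] at h2
      obtain ⟨j', -, hj'⟩ := h2
      refine ⟨j', ?_⟩
      simpa [sub_eq_zero] using hj'
    choose f hf using hroot
    have hinj : Function.Injective f := by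
      intro j j' hjj
      apply (D.good i).inj
      apply σ.injective
      rw [hf, hf, hjj]
    refine ⟨Equiv.ofBijective f (Finite.injective_iff_bijective.1 hinj), ⟨fun j => hf j, fun j => ?_⟩⟩
    rw [hμ, hμ j]

end

end Pool.Agent.AQ
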