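import Pool.Agent.helper85.AQ.SpecB

set_option autoImplicit false

namespace Pool.Agent.AQ

open Polynomial Pool.Agent.HC Pool.Agent.HC.SJ Pool.Agent.SJ Pool.Agent.GJ Pool.Agent.TK Pool.Agent.CM
open Pool.Agent.TQJ Pool.Agent.TQG
open Pool.Agent.FJ (VT Om chiO rf rs IsFrobO)
open Pool.Agent.TD (zK DvK bC mK IsPhiK Stab)
open scoped TensorProduct NumberField

noncomputable section

theorem BPR : BPR_stmt := by
  intro m p hm hp hpm h x y hx hy
  have : Fact m.Prime := ⟨hm⟩
  have hp0 : (p : ZMod m) ≠ 0 := by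
    intro h0
    rw [ZMod.natCast_eq_zero_iff] at h0
    exact hpm ((Nat.prime_dvd_prime_iff_eq hm hp).1 h0).symm
  set u : (ZMod m)ˣ := Units.mk0 (p : ZMod m) hp0 with hu
  have hord : m - 1 ≤ orderOf u := by
    apply h _ (orderOf_pos u)
    have h1 : u ^ orderOf u = 1 := pow_orderOf_eq_one u
    have h2 : (p : ZMod m) ^ orderOf u = 1 := by
      have h3 : ((u ^ orderOf u : (ZMod m)ˣ) : ZMod m) = ((1 : (ZMod m)ˣ) : ZMod m) := by rw [h1]
      rw [Units.val_pow_eq_pow_val, Units.val_one] at h3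
      exact h3
    have h4 : ((p ^ orderOf u : ℕ) : ZMod m) = ((1 : ℕ) : ZMod m) := by
      push_cast
      exact h2
    rw [ZMod.natCast_eq_natCast_iff] at h4
    have h5 : 1 ≤ p ^ orderOf u := Nat.one_le_pow _ _ hp.pos
    exact (Nat.modEq_iff_dvd' h5).1 h4.symm
  have hcard : Nat.card (ZMod m)ˣ = m - 1 := by
    rw [Nat.card_eq_fintype_card, ZMod.card_units]
  have htop : Subgroup.zpowers u = ⊤ := by
    apply Subgroup.eq_top_of_card_eq
    rw [Nat.card_zpowers]
    apply le_antisymm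
    · exact Nat.le_of_dvd Nat.card_pos (orderOf_dvd_natCard u)
    · rw [hcard]
      exact hord
  have hmem : Units.mk0 y hy * (Units.mk0 x hx)⁻¹ ∈ Subgroup.zpowers u := by
    rw [htop]
    trivial
  rw [← mem_powers_iff_mem_zpowers] at hmem
  obtain ⟨k, hk⟩ := hmem
  refine ⟨k, ?_⟩
  have h1 : u ^ k * Units.mk0 x hx = Units.mk0 y hy := by
    rw [show u ^ k = Units.mk0 y hy * (Units.mk0 x hx)⁻¹ from hk, inv_mul_cancel_right]
  have h2 := congrArg (fun v : (ZMod m)ˣ => (v : ZMod m)) h1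
  simpa [hu] using h2.symm

end

end Pool.Agent.AQ
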