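import Pool.Agent.helper85.AQ.SpecL

set_option autoImplicit false

namespace Pool.Agent.AQ

open Pool.Agent.GJ
open scoped TensorProduct

noncomputable section

theorem LRT_three_lt {a b c d : ℕ} (hab : a ≤ b) (hcd : c ≤ d) (hac : a < c) : 3 ^ a + 3 ^ b ≠ 3 ^ c + 3 ^ d := by
  intro h
  obtain ⟨e, rfl⟩ := Nat.exists_eq_add_of_le hab
  obtain ⟨k, rfl⟩ := Nat.exists_eq_add_of_lt hac
  obtain ⟨j, rfl⟩ := Nat.exists_eq_add_of_le hcd
  have h1 : 3 ^ a * (1 + 3 ^ e) = 3 ^ a * (3 * (3 ^ k + 3 ^ (k + j))) := by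
    have e1 : 3 ^ (a + e) = 3 ^ a * 3 ^ e := pow_add _ _ _
    have e2 : 3 ^ (a + k + 1) = 3 ^ a * (3 * 3 ^ k) := by rw [pow_add, pow_add]; ring
    have e3 : 3 ^ (a + k + 1 + j) = 3 ^ a * (3 * 3 ^ (k + j)) := by
      rw [pow_add, pow_add, pow_add, pow_add]; ring
    rw [e1, e2, e3] at h
    rw [mul_add, mul_one, h]
    ring
  have h2 := Nat.eq_of_mul_eq_mul_left (by positivity) h1
  rcases Nat.eq_zero_or_pos e with he | he
  · subst he
    omega
  · obtain ⟨e', rfl⟩ := Nat.exists_eq_add_of_lt he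
    rw [zero_add, pow_succ] at h2
    omega

theorem LRT_three_le {a b c d : ℕ} (hab : a ≤ b) (hcd : c ≤ d) (h : 3 ^ a + 3 ^ b = 3 ^ c + 3 ^ d) :
    a = c ∧ b = d := by
  rcases lt_trichotomy a c with h1 | h1 | h1
  · exact absurd h (LRT_three_lt hab hcd h1)
  · subst h1
    refine ⟨rfl, ?_⟩
    have h2 : 3 ^ b = 3 ^ d := by omega
    exact Nat.pow_right_injective (le_refl 2 |>.trans (by norm_num)) h2
  · exact absurd h.symm (LRT_three_lt hcd hab h1)

theorem LRT_three {i j s t : ℕ} (hst : s ≠ t) (h : 3 ^ i + 3 ^ t = 3 ^ s + 3 ^ j) : i = s ∧ j = t := by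
  rcases le_total i t with h1 | h1 <;> rcases le_total s j with h2 | h2
  · have := LRT_three_le h1 h2 h
    omega
  · have := LRT_three_le h1 h2 (by rw [h, add_comm])
    omega
  · have := LRT_three_le h1 h2 (by rw [add_comm, h])
    omega
  · have := LRT_three_le h1 h2 (by rw [add_comm, h, add_comm])
    omega

theorem LRT_x (Ω : Type) [Field Ω] [CharZero Ω] (n : ℕ) (hn : n ≠ 0) : ∃ x : Fin n → Ω, ∑ t, x t = 0 ∧
    ∀ i j s t : Fin n, s ≠ t → x i - x j = x s - x t → i = s ∧ j = t := by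
  set c : Ω := (∑ t : Fin n, (3 : Ω) ^ (t : ℕ)) / n with hc
  have hn0 : (n : Ω) ≠ 0 := Nat.cast_ne_zero.2 hn
  refine ⟨fun t => (3 : Ω) ^ (t : ℕ) - c, ?_, ?_⟩
  · rw [Finset.sum_sub_distrib, Finset.sum_const, Finset.card_univ, Fintype.card_fin, nsmul_eq_mul, hc,
      mul_div_cancel₀ _ hn0, sub_self]
  · intro i j s t hst h
    have h1 : (3 : Ω) ^ (i : ℕ) + (3 : Ω) ^ (t : ℕ) = (3 : Ω) ^ (s : ℕ) + (3 : Ω) ^ (j : ℕ) := by
      linear_combination h
    have h2 : 3 ^ (i : ℕ) + 3 ^ (t : ℕ) = 3 ^ (s : ℕ) + 3 ^ (j : ℕ) := by exact_mod_cast h1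
    have h3 := LRT_three (fun h4 => hst (Fin.ext h4)) h2
    exact ⟨Fin.ext h3.1, Fin.ext h3.2⟩

theorem LRT : LRT_stmt := by
  classical
  intro Ω V _ _ _ _ n v b hbr hdg M hM s t hst hne
  have hn : n ≠ 0 := by
    rintro rfl
    exact s.elim0
  obtain ⟨x, hx0, hx⟩ := LRT_x Ω n hn
  -- the operator ad
  let T : Module.End Ω (V →ₗ[Ω] V) :=
    { toFun := fun N => dg v x ∘ₗ N - N ∘ₗ dg v x
      map_add' := fun N N' => by
        rw [LinearMap.comp_add, LinearMap.add_comp]
        abel
      map_smul' := fun c N => by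
        rw [LinearMap.comp_smul, LinearMap.smul_comp, RingHom.id_apply, smul_sub] }
  have hTb : ∀ N ∈ b, T N ∈ b := fun N hN => hbr _ (hdg x hx0) _ hN
  have hPb : ∀ (P : Polynomial Ω), ∀ N ∈ b, Polynomial.aeval T P N ∈ b := by
    intro P
    induction P using Polynomial.induction_on' with
    | add p q hp hq =>
      intro N hN
      rw [map_add, LinearMap.add_apply]
      exact b.add_mem (hp N hN) (hq N hN)
    | monomial k a =>
      intro N hN
      rw [Polynomial.aeval_monomial, Module.End.mul_apply, Module.algebraMap_end_apply]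
      apply b.smul_mem
      induction k with
      | zero => simpa using hN
      | succ k ih =>
        rw [pow_succ', Module.End.mul_apply]
        exact hTb _ ih
  have hel : ∀ i j k : Fin n, el v i j (v k) = if k = j then v i else 0 := by
    intro i j k
    unfold el
    rw [v.constr_basis]
  have hTel : ∀ i j : Fin n, T (el v i j) = (x i - x j) • el v i j := by
    intro i j
    apply v.ext
    intro k
    show dg v x (el v i j (v k)) - el v i j (dg v x (v k)) = (x i - x j) • el v i j (v k)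
    rw [dg_apply, map_smul, hel]
    by_cases hk : k = j
    · rw [if_pos hk, dg_apply, hk, sub_smul]
    · rw [if_neg hk, map_zero, smul_zero, smul_zero, sub_zero]
  have hPel : ∀ (P : Polynomial Ω) (i j : Fin n), Polynomial.aeval T P (el v i j) = P.eval (x i - x j) • el v i j := by
    intro P i j
    have h1 : el v i j ≠ 0 := by
      intro h0
      have h2 := hel i j j
      rw [h0, if_pos rfl, LinearMap.zero_apply] at h2
      exact v.ne_zero i h2.symm
    exact Module.End.aeval_apply_of_hasEigenvector ⟨Module.End.mem_eigenspace_iff.2 (hTel i j), h1⟩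
  have hMsum : M = ∑ p : Fin n × Fin n, v.repr (M (v p.2)) p.1 • el v p.1 p.2 := by
    apply v.ext
    intro k
    rw [LinearMap.sum_apply]
    simp only [LinearMap.smul_apply, hel]
    rw [Fintype.sum_prod_type]
    have h1 : ∀ i : Fin n, ∑ j : Fin n, (v.repr (M (v j)) i) • (if k = j then v i else (0 : V)) =
        (v.repr (M (v k)) i) • v i := by
      intro i
      rw [Finset.sum_eq_single k]
      · rw [if_pos rfl]
      · intro j _ hj
        rw [if_neg (fun h => hj h.symm), smul_zero]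
      · intro h
        exact absurd (Finset.mem_univ k) h
    simp only [h1]
    exact (v.sum_repr (M (v k))).symm
  set P : Polynomial Ω := ∏ p ∈ (Finset.univ.erase ((s, t) : Fin n × Fin n)), (Polynomial.X - Polynomial.C (x p.1 - x p.2))
    with hP
  have hP0 : ∀ p : Fin n × Fin n, p ≠ (s, t) → P.eval (x p.1 - x p.2) = 0 := by
    intro p hp
    rw [hP, Polynomial.eval_prod]
    apply Finset.prod_eq_zero (Finset.mem_erase.2 ⟨hp, Finset.mem_univ p⟩)
    simp
  have hP1 : P.eval (x s - x t) ≠ 0 := by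
    rw [hP, Polynomial.eval_prod]
    apply Finset.prod_ne_zero_iff.2
    rintro ⟨i, j⟩ hp h0
    rw [Finset.mem_erase] at hp
    simp only [Polynomial.eval_sub, Polynomial.eval_X, Polynomial.eval_C] at h0
    have h1 := hx i j s t hst (sub_eq_zero.1 h0).symm
    exact hp.1 (Prod.ext h1.1 h1.2)
  have hfin := hPb P M hM
  rw [hMsum, map_sum] at hfin
  rw [Finset.sum_eq_single ((s, t) : Fin n × Fin n)] at hfin
  · rw [map_smul, hPel, smul_smul] at hfin
    have h1 : v.repr (M (v t)) s * P.eval (x s - x t) ≠ 0 := mul_ne_zero hne hP1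
    have h2 := b.smul_mem (v.repr (M (v t)) s * P.eval (x s - x t))⁻¹ hfin
    rw [smul_smul, inv_mul_cancel₀ h1, one_smul] at h2
    exact h2
  · intro p _ hp
    rw [map_smul, hPel, hP0 p hp, zero_smul, smul_zero]
  · intro h
    exact absurd (Finset.mem_univ _) h

end

end Pool.Agent.AQ
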