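import Pool.Agent.helper85.AQ.SpecL

set_option autoImplicit false

namespace Pool.Agent.AQ

open Pool.Agent.GJ
open scoped TensorProduct

noncomputable section

theorem LTR_mem {Ω V : Type} [Field Ω] [AddCommGroup V] [Module Ω V] (Z : V →ₗ[Ω] V) (ζ : Ω) (s : ℕ) (u : V) :
    u ∈ eg Z ζ s ↔ Z u = ζ ^ s • u := by
  unfold eg
  rw [LinearMap.mem_ker, LinearMap.sub_apply, LinearMap.smul_apply, LinearMap.id_apply, sub_eq_zero]

theorem LTR_pow {Ω V : Type} [Field Ω] [AddCommGroup V] [Module Ω V] (Z : Module.End Ω V) (c : Ω) (u : V)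
    (h : Z u = c • u) (j : ℕ) : (Z ^ j) u = c ^ j • u := by
  induction j with
  | zero => simp
  | succ j ih =>
    rw [pow_succ', Module.End.mul_apply, ih, map_smul, h, smul_smul, pow_succ]

theorem LTR : LTR_stmt := by
  intro Ω V _ _ _ _ _ l hl Z ζ hζ hDec A hAZ htr s hs0 hsl N hN
  have hζ0 : ζ ≠ 0 := hζ.ne_zero hl.ne_zero
  have hl0 : (l : Ω) ≠ 0 := Nat.cast_ne_zero.2 hl.ne_zero
  let Z' : Module.End Ω V := Z
  set P : Module.End Ω V := ∑ j ∈ Finset.range l, ((ζ ^ s)⁻¹) ^ j • (Z' ^ j) with hP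
  have hPapp : ∀ w : V, P w = ∑ j ∈ Finset.range l, ((ζ ^ s)⁻¹) ^ j • ((Z' ^ j) w) := by
    intro w
    rw [hP, LinearMap.sum_apply]
    rfl
  have hPu : ∀ r, 0 < r → r < l → ∀ u ∈ eg Z ζ r, P u = if r = s then (l : Ω) • u else 0 := by
    intro r hr0 hrl u hu
    rw [LTR_mem] at hu
    have h1 : P u = (∑ j ∈ Finset.range l, ((ζ ^ s)⁻¹ * ζ ^ r) ^ j) • u := by
      rw [hPapp, Finset.sum_smul]
      apply Finset.sum_congr rfl
      intro j _
      rw [LTR_pow Z' (ζ ^ r) u hu j, smul_smul, mul_pow]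
    rw [h1]
    by_cases hrs : r = s
    · rw [if_pos hrs, hrs, inv_mul_cancel₀ (pow_ne_zero _ hζ0)]
      simp
    · rw [if_neg hrs]
      have h2 : (ζ ^ s)⁻¹ * ζ ^ r ≠ 1 := by
        intro h3
        apply hrs
        have h4 : ζ ^ r = ζ ^ s := by
          calc ζ ^ r = ζ ^ s * ((ζ ^ s)⁻¹ * ζ ^ r) := by
                rw [← mul_assoc, mul_inv_cancel₀ (pow_ne_zero _ hζ0), one_mul]
            _ = ζ ^ s := by rw [h3, mul_one]
        exact hζ.pow_inj hrl hsl h4
      have h5 : ((ζ ^ s)⁻¹ * ζ ^ r) ^ l = 1 := by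
        rw [mul_pow, inv_pow, ← pow_mul, ← pow_mul, mul_comm s l, mul_comm r l, pow_mul, pow_mul,
          hζ.pow_eq_one, one_pow, one_pow, inv_one, one_mul]
      have h6 := mul_geom_sum ((ζ ^ s)⁻¹ * ζ ^ r) l
      rw [h5, sub_self] at h6
      rcases mul_eq_zero.1 h6 with h7 | h7
      · exact absurd (sub_eq_zero.1 h7) h2
      · rw [h7, zero_smul]
  have hmem : ∀ w : V, P w ∈ eg Z ζ s := by
    intro w
    obtain ⟨u, ⟨hu, hw⟩, -⟩ := hDec w
    rw [hw, map_sum]
    apply Submodule.sum_mem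
    intro r _
    have h1 := hPu ((r : ℕ) + 1) (by omega) (by have := r.2; omega) (u r) (hu r)
    rw [h1]
    by_cases hrs : (r : ℕ) + 1 = s
    · rw [if_pos hrs]
      apply Submodule.smul_mem
      rw [← hrs]
      exact hu r
    · rw [if_neg hrs]
      exact Submodule.zero_mem _
  set f : V →ₗ[Ω] V := P ∘ₗ A with hf
  have hfmem : ∀ w, f w ∈ eg Z ζ s := fun w => hmem _
  have h1 := LinearMap.trace_restrict_eq_of_forall_mem (eg Z ζ s) f hfmem
  have h2 : LinearMap.trace Ω V f = 0 := by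
    have h3 : f = ∑ j ∈ Finset.range l, ((ζ ^ s)⁻¹) ^ j • ((Z' ^ j : Module.End Ω V) ∘ₗ A) := by
      apply LinearMap.ext
      intro w
      rw [hf, LinearMap.comp_apply, hPapp, LinearMap.sum_apply]
      rfl
    rw [h3, map_sum]
    apply Finset.sum_eq_zero
    intro j _
    rw [map_smul, htr j, smul_zero]
  have h3 : f.restrict (fun x _ => hfmem x) = (l : Ω) • N := by
    apply LinearMap.ext
    intro x
    apply Subtype.ext
    rw [LinearMap.restrict_coe_apply, LinearMap.smul_apply, Submodule.coe_smul, hf, LinearMap.comp_apply, hN x]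
    rw [hPu s hs0 hsl (N x) (N x).2, if_pos rfl]
  rw [h2, h3, map_smul, smul_eq_mul] at h1
  exact (mul_eq_zero.1 h1).resolve_left hl0

end

end Pool.Agent.AQ
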